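import Mathlib

/-! A linear system whose matrix is close to the identity and whose right side is close to the
all-ones vector has a positive solution. -/

namespace Pool.Agent.X53.Exp

open Finset

theorem solve_near_one {ι : Type*} [Fintype ι] [DecidableEq ι] (A : Matrix ι ι ℝ) (b : ι → ℝ)
    (ε : ℝ) (hε0 : 0 ≤ ε) (hε : ((Fintype.card ι : ℝ) + 1) * ε ≤ 1 / 4)
    (hoff : ∀ k l, k ≠ l → |A k l| ≤ ε) (hdiag : ∀ k, |A k k - 1| ≤ ε)
    (hb : ∀ k, |b k - 1| ≤ ε) :
    ∃ μ : ι → ℝ, (∀ k, ∑ l, A k l * μ l = b k) ∧ ∀ k, 0 ≤ μ k ∧ μ k ≤ 2 := by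
  have hεs : ε ≤ 1 / 4 := by
    have : (0 : ℝ) ≤ (Fintype.card ι : ℝ) * ε := by positivity
    nlinarith
  have hcard : ∀ k : ι, ((Finset.univ.erase k).card : ℝ) ≤ Fintype.card ι := by
    intro k
    exact_mod_cast (Finset.card_le_univ _)
  have hdet : A.det ≠ 0 := by
    apply det_ne_zero_of_sum_row_lt_diag
    intro k
    have h1 : ∑ j ∈ Finset.univ.erase k, ‖A k j‖ ≤ ∑ j ∈ Finset.univ.erase k, ε := by
      apply Finset.sum_le_sum
      intro j hj
      exact hoff k j (Finset.ne_of_mem_erase hj).symm
    rw [Finset.sum_const, nsmul_eq_mul] at h1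
    have h2 := abs_le.1 (hdiag k)
    have h3 : ‖A k k‖ = A k k := by
      rw [Real.norm_eq_abs, abs_of_pos]; linarith
    rw [h3]
    have h4 := mul_le_mul_of_nonneg_right (hcard k) hε0
    nlinarith
  have hunit : IsUnit A.det := isUnit_iff_ne_zero.2 hdet
  set μ : ι → ℝ := A⁻¹.mulVec b with hμ
  have hsol : A.mulVec μ = b := by
    rw [hμ, Matrix.mulVec_mulVec, Matrix.mul_nonsing_inv A hunit, Matrix.one_mulVec]
  have hsol' : ∀ k, ∑ l, A k l * μ l = b k := fun k => congrFun hsol k
  -- bound on |μ|
  have hrow : ∀ k, A k k * μ k = b k - ∑ l ∈ Finset.univ.erase k, A k l * μ l := by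
    intro k
    have := hsol' k
    rw [← Finset.add_sum_erase _ _ (Finset.mem_univ k)] at this
    linarith
  have hM : ∀ k, |μ k| ≤ 2 := by
    rcases isEmpty_or_nonempty ι with he | hne
    · intro k; exact (he.false k).elim
    obtain ⟨k0, -, hk0⟩ := Finset.exists_max_image (Finset.univ : Finset ι) (fun k => |μ k|)
      Finset.univ_nonempty
    have hk0' : ∀ k, |μ k| ≤ |μ k0| := fun k => hk0 k (Finset.mem_univ k)
    have h1 : |∑ l ∈ Finset.univ.erase k0, A k0 l * μ l| ≤
        (Fintype.card ι : ℝ) * (ε * |μ k0|) := by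
      calc |∑ l ∈ Finset.univ.erase k0, A k0 l * μ l|
          ≤ ∑ l ∈ Finset.univ.erase k0, |A k0 l * μ l| := Finset.abs_sum_le_sum_abs _ _
        _ ≤ ∑ l ∈ Finset.univ.erase k0, ε * |μ k0| := by
            apply Finset.sum_le_sum
            intro j hj
            rw [abs_mul]
            exact mul_le_mul (hoff k0 j (Finset.ne_of_mem_erase hj).symm) (hk0' j)
              (abs_nonneg _) hε0
        _ ≤ _ := by
            rw [Finset.sum_const, nsmul_eq_mul]
            exact mul_le_mul_of_nonneg_right (hcard k0) (by positivity)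
    have h2 : |A k0 k0 * μ k0| ≤ |b k0| + (Fintype.card ι : ℝ) * (ε * |μ k0|) := by
      rw [hrow k0]
      exact (abs_sub _ _).trans (by linarith)
    have h3 : (1 - ε) * |μ k0| ≤ |A k0 k0 * μ k0| := by
      rw [abs_mul]
      have := abs_le.1 (hdiag k0)
      have h5 : 1 - ε ≤ |A k0 k0| := le_trans (by linarith) (le_abs_self _)
      exact mul_le_mul_of_nonneg_right h5 (abs_nonneg _)
    have h4 : |b k0| ≤ 1 + ε := by
      have := abs_le.1 (hb k0)
      rw [abs_le]; constructor <;> linarith
    have h6 : |μ k0| ≤ 2 := by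
      have h7 : ((Fintype.card ι : ℝ) + 1) * ε * |μ k0| ≤ 1 / 4 * |μ k0| :=
        mul_le_mul_of_nonneg_right hε (abs_nonneg _)
      nlinarith [abs_nonneg (μ k0)]
    intro k
    exact (hk0' k).trans h6
  refine ⟨μ, hsol', fun k => ⟨?_, (le_abs_self _).trans (hM k)⟩⟩
  have h1 : |∑ l ∈ Finset.univ.erase k, A k l * μ l| ≤ (Fintype.card ι : ℝ) * (ε * 2) := by
      calc |∑ l ∈ Finset.univ.erase k, A k l * μ l|
          ≤ ∑ l ∈ Finset.univ.erase k, |A k l * μ l| := Finset.abs_sum_le_sum_abs _ _
        _ ≤ ∑ l ∈ Finset.univ.erase k, ε * 2 := by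
            apply Finset.sum_le_sum
            intro j hj
            rw [abs_mul]
            exact mul_le_mul (hoff k j (Finset.ne_of_mem_erase hj).symm) (hM j)
              (abs_nonneg _) hε0
        _ ≤ _ := by
            rw [Finset.sum_const, nsmul_eq_mul]
            exact mul_le_mul_of_nonneg_right (hcard k) (by positivity)
  have h2 := (abs_le.1 h1).2
  have h3 := (abs_le.1 (hb k)).1
  have h4 : 0 ≤ A k k * μ k := by
    rw [hrow k]
    nlinarith
  have h5 : 0 < A k k := by
    have := (abs_le.1 (hdiag k)).1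
    linarith
  by_contra hneg
  push Not at hneg
  have := mul_neg_of_pos_of_neg h5 hneg
  linarith

/-- The combinatorial choice of points and weights for the increasing coordinates. -/
theorem chain_choice {ι : Type*} [DecidableEq ι] (n : ℕ) (E : ℕ → ι → ℤ) (K G : ℤ) (hK : 0 ≤ K)
    (hG : 2 * K ≤ G) (val : ι → ℤ) (s : Finset ι) :
    s.card ≤ n → (∀ k ∈ s, ∀ i j, i < j → j ≤ n → G ≤ E j k - E i k) →
    (∀ k ∈ s, ∀ l ∈ s, val k < val l → ∀ i j, i < j → j ≤ n →
      (E j k - E i k) + G ≤ E j l - E i l) →
    Set.InjOn val s →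
    ∃ (π : ι → ℕ) (u : ι → ℤ), (∀ k ∈ s, 1 ≤ π k ∧ π k ≤ s.card) ∧ (∀ k ∈ s, K ≤ u k) ∧
      (∀ k ∈ s, E 0 k + K ≤ E (π k) k - u k) ∧
      (∀ k ∈ s, ∀ l ∈ s, k ≠ l → E (π l) k - u l ≤ E (π k) k - u k - K) := by
  induction s using Finset.induction_on_max_value val with
  | empty =>
    intro _ _ _ _
    exact ⟨fun _ => 0, fun _ => 0, by simp, by simp, by simp, by simp⟩
  | insert a s has hmax ih =>
    intro hcard h1 h2 hinj
    rw [Finset.card_insert_of_notMem has] at hcard
    have hsub : ∀ k ∈ s, k ∈ insert a s := fun k hk => Finset.mem_insert_of_mem hk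
    obtain ⟨π, u, hπ, hu, hb, hc⟩ := ih (by omega) (fun k hk => h1 k (hsub k hk))
      (fun k hk l hl => h2 k (hsub k hk) l (hsub l hl))
      (hinj.mono (fun k hk => by
        rw [Finset.mem_coe] at hk ⊢
        exact hsub k hk))
    have haa : a ∈ insert a s := Finset.mem_insert_self a s
    have hlt : ∀ k ∈ s, val k < val a := by
      intro k hk
      refine lt_of_le_of_ne (hmax k hk) (fun h => has ?_)
      have := hinj (Finset.mem_coe.2 (hsub k hk)) (Finset.mem_coe.2 haa) h
      rw [← this]; exact hk
    set p := s.card + 1 with hp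
    -- the lower bounds
    let f : ι → ℤ := fun v => u v + (E p v - E (π v) v) + K
    have hexists : ∃ w : ℤ, K ≤ w ∧ (∀ v ∈ s, f v ≤ w) ∧
        (w = K ∨ ∃ v ∈ s, w = f v) := by
      classical
      have hne : (insert K (s.image f)).Nonempty := Finset.insert_nonempty _ _
      refine ⟨(insert K (s.image f)).max' hne, Finset.le_max' _ _ (Finset.mem_insert_self _ _),
        fun v hv => Finset.le_max' _ _ (Finset.mem_insert_of_mem (Finset.mem_image_of_mem _ hv)),
        ?_⟩
      have := Finset.max'_mem _ hne
      rw [Finset.mem_insert, Finset.mem_image] at this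
      rcases this with h | ⟨v, hv, h⟩
      · exact Or.inl h
      · exact Or.inr ⟨v, hv, h.symm⟩
    obtain ⟨w, hwK, hwf, hw⟩ := hexists
    -- increments
    have hinc : ∀ v ∈ s, ∀ v' ∈ s, (E p v - E (π v') v) + G ≤ E p a - E (π v') a := by
      intro v hv v' hv'
      exact h2 v (hsub v hv) a haa (hlt v hv) (π v') p (by have := (hπ v' hv').2; omega) hcard
    -- upper bounds
    have hup : ∀ v' ∈ s, w ≤ u v' + (E p a - E (π v') a) - K := by
      intro v' hv'
      rcases hw with hw | ⟨v, hv, hw⟩
      · have := h1 a haa (π v') p (by have := (hπ v' hv').2; omega) hcard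
        have := hu v' hv'
        omega
      · have hi := hinc v hv v' hv'
        by_cases hvv : v = v'
        · subst hvv
          simp only [hw, f]
          omega
        · have hcc := hc v hv v' hv' hvv
          simp only [hw, f]
          omega
    have hup0 : w ≤ (E p a - E 0 a) - K := by
      rcases hw with hw | ⟨v, hv, hw⟩
      · have := h1 a haa 0 p (by omega) hcard
        omega
      · have hi := h2 v (hsub v hv) a haa (hlt v hv) 0 p (by omega) hcard
        have hbv := hb v hv
        simp only [hw, f]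
        omega
    refine ⟨fun k => if k = a then p else π k, fun k => if k = a then w else u k, ?_, ?_, ?_, ?_⟩
    · intro k hk
      rw [Finset.card_insert_of_notMem has]
      rw [Finset.mem_insert] at hk
      rcases hk with rfl | hk
      · simp only [if_true]; omega
      · have hka : k ≠ a := fun h => has (h ▸ hk)
        simp only [if_neg hka]
        have := hπ k hk
        omega
    · intro k hk
      rw [Finset.mem_insert] at hk
      rcases hk with rfl | hk
      · simp only [if_true]; exact hwK
      · have hka : k ≠ a := fun h => has (h ▸ hk)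
        simp only [if_neg hka]
        exact hu k hk
    · intro k hk
      rw [Finset.mem_insert] at hk
      rcases hk with rfl | hk
      · simp only [if_true]; omega
      · have hka : k ≠ a := fun h => has (h ▸ hk)
        simp only [if_neg hka]
        exact hb k hk
    · intro k hk l hl hkl
      rw [Finset.mem_insert] at hk hl
      rcases hk with rfl | hk
      · rcases hl with rfl | hl
        · exact absurd rfl hkl
        · have hla : l ≠ k := fun h => has (h ▸ hl)
          simp only [if_true, if_neg hla]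
          have := hup l hl
          omega
      · have hka : k ≠ a := fun h => has (h ▸ hk)
        rcases hl with rfl | hl
        · simp only [if_true, if_neg hka]
          have := hwf k hk
          simp only [f] at this
          omega
        · have hla : l ≠ a := fun h => has (h ▸ hl)
          simp only [if_neg hla, if_neg hka]
          exact hc k hk l hl hkl

end Pool.Agent.X53.Exp
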