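import Mathlib
import Pool.Agent.X53.Exp.Mat

/-! The core construction: a lattice point inside a simplex spanned by well separated points. -/

namespace Pool.Agent.X53.Exp

open Finset

/-- The lattice point with exponent vector `e`. -/
def pt {d : ℕ} (α : ℝ) (e : Fin d → ℕ) : Fin d → ℝ := fun k => α ^ (e k)

theorem core (d : ℕ) (α : ℝ) (hα : 1 < α) (K : ℤ) (hK : 1 ≤ K)
    (hKα : ((d : ℝ) + 1) * α ^ (-K) ≤ 1 / 4) (E : ℕ → Fin d → ℕ) (val : Fin d → ℤ)
    (h1 : ∀ k, 0 < val k → ∀ i j, i < j → j ≤ 2 * d → 2 * K ≤ (E j k : ℤ) - E i k)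
    (h2 : ∀ k, val k < 0 → ∀ i j, i < j → j ≤ 2 * d → 2 * K ≤ (E i k : ℤ) - E j k)
    (h3 : ∀ k, val k = 0 → ∀ i j, i < j → j ≤ 2 * d → (E i k : ℤ) = E j k)
    (h4 : ∀ k l, val k < val l → ∀ i j, i < j → j ≤ 2 * d →
      ((E j k : ℤ) - E i k) + 2 * K ≤ (E j l : ℤ) - E i l)
    (h5 : ∀ k l, val k = val l → ∀ i j, i < j → j ≤ 2 * d →
      ((E j k : ℤ) - E i k) = (E j l : ℤ) - E i l)
    (h6 : ∃ k, val k ≠ 0) :
    ∃ (q : Fin d → ℕ) (I : Set ℕ), (∀ i ∈ I, i ≤ 2 * d) ∧ (∀ i ∈ I, E i ≠ q) ∧
      pt α q ∈ convexHull ℝ ((fun i => pt α (E i)) '' I) := by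
  classical
  have hα0 : 0 < α := by linarith
  have hαne : α ≠ 0 := hα0.ne'
  -- representatives
  set R : Finset (Fin d) := Finset.univ.filter
    (fun k => val k ≠ 0 ∧ ∀ l, val l = val k → k ≤ l) with hR
  have hRinj : ∀ k ∈ R, ∀ l ∈ R, val k = val l → k = l := by
    intro k hk l hl h
    rw [hR, Finset.mem_filter] at hk hl
    exact le_antisymm (hk.2.2 l h.symm) (hl.2.2 k h)
  have hrep : ∀ k, val k ≠ 0 → ∃ r ∈ R, val r = val k := by
    intro k hk
    have hne : (Finset.univ.filter (fun l => val l = val k)).Nonempty :=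
      ⟨k, by simp⟩
    have hmem := Finset.min'_mem _ hne
    set r := (Finset.univ.filter (fun l => val l = val k)).min' hne with hr
    rw [Finset.mem_filter] at hmem
    refine ⟨r, ?_, hmem.2⟩
    rw [hR, Finset.mem_filter]
    refine ⟨Finset.mem_univ _, by rw [hmem.2]; exact hk, fun l hl => ?_⟩
    exact Finset.min'_le _ _ (by rw [Finset.mem_filter]; exact ⟨Finset.mem_univ _, by rw [hl, hmem.2]⟩)
  have hRne : ∀ k ∈ R, val k ≠ 0 := fun k hk => by
    rw [hR, Finset.mem_filter] at hk; exact hk.2.1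
  -- chain choices
  obtain ⟨πp, up, hπp, hup, hbp, hcp⟩ := chain_choice d (fun i k => (E (d + i) k : ℤ)) K (2 * K)
    (by omega) le_rfl val (R.filter (fun k => 0 < val k))
    (by
      have := Finset.card_le_univ (R.filter (fun k => 0 < val k))
      simpa using this)
    (by
      intro k hk i j hij hj
      rw [Finset.mem_filter] at hk
      exact h1 k hk.2 (d + i) (d + j) (by omega) (by omega))
    (by
      intro k _ l _ hkl i j hij hj
      exact h4 k l hkl (d + i) (d + j) (by omega) (by omega))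
    (by
      intro k hk l hl h
      rw [Finset.mem_coe, Finset.mem_filter] at hk hl
      exact hRinj k hk.1 l hl.1 h)
  obtain ⟨πn, un, hπn, hun, hbn, hcn⟩ := chain_choice d (fun i k => (E (d - i) k : ℤ)) K (2 * K)
    (by omega) le_rfl (fun k => - val k) (R.filter (fun k => val k < 0))
    (by
      have := Finset.card_le_univ (R.filter (fun k => val k < 0))
      simpa using this)
    (by
      intro k hk i j hij hj
      rw [Finset.mem_filter] at hk
      exact h2 k hk.2 (d - j) (d - i) (by omega) (by omega))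
    (by
      intro k _ l _ hkl i j hij hj
      have := h4 l k (by omega) (d - j) (d - i) (by omega) (by omega)
      omega)
    (by
      intro k hk l hl h
      rw [Finset.mem_coe, Finset.mem_filter] at hk hl
      exact hRinj k hk.1 l hl.1 (by simpa using h))
  have hcardp : (R.filter (fun k => 0 < val k)).card ≤ d := by
    have := Finset.card_le_univ (R.filter (fun k => 0 < val k))
    simpa using this
  have hcardn : (R.filter (fun k => val k < 0)).card ≤ d := by
    have := Finset.card_le_univ (R.filter (fun k => val k < 0))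
    simpa using this
  -- merged functions
  let ρ : Fin d → ℕ := fun k => if 0 < val k then d + πp k else d - πn k
  let U : Fin d → ℤ := fun k => if 0 < val k then up k else un k
  have hρp : ∀ k, 0 < val k → ρ k = d + πp k := fun k hk => if_pos hk
  have hρn : ∀ k, val k < 0 → ρ k = d - πn k := fun k hk => if_neg (by omega)
  have hUp : ∀ k, 0 < val k → U k = up k := fun k hk => if_pos hk
  have hUn : ∀ k, val k < 0 → U k = un k := fun k hk => if_neg (by omega)
  have hsgn : ∀ k ∈ R, (0 < val k ∧ k ∈ R.filter (fun k => 0 < val k)) ∨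
      (val k < 0 ∧ k ∈ R.filter (fun k => val k < 0)) := by
    intro k hk
    rcases lt_or_gt_of_ne (hRne k hk) with h | h
    · exact Or.inr ⟨h, Finset.mem_filter.2 ⟨hk, h⟩⟩
    · exact Or.inl ⟨h, Finset.mem_filter.2 ⟨hk, h⟩⟩
  have hρle : ∀ k ∈ R, ρ k ≤ 2 * d := by
    intro k hk
    rcases hsgn k hk with ⟨h, h'⟩ | ⟨h, h'⟩
    · rw [hρp k h]
      have := (hπp k h').2
      omega
    · rw [hρn k h]
      omega
  have hUK : ∀ k ∈ R, K ≤ U k := by
    intro k hk
    rcases hsgn k hk with ⟨h, h'⟩ | ⟨h, h'⟩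
    · rw [hUp k h]; exact hup k h'
    · rw [hUn k h]; exact hun k h'
  have hB : ∀ k ∈ R, (E d k : ℤ) + K ≤ (E (ρ k) k : ℤ) - U k := by
    intro k hk
    rcases hsgn k hk with ⟨h, h'⟩ | ⟨h, h'⟩
    · rw [hUp k h, hρp k h]
      have := hbp k h'
      simpa using this
    · rw [hUn k h, hρn k h]
      have := hbn k h'
      simpa using this
  have hC : ∀ k ∈ R, ∀ l ∈ R, k ≠ l →
      (E (ρ l) k : ℤ) - U l ≤ (E (ρ k) k : ℤ) - U k - K := by
    intro k hk l hl hkl
    rcases hsgn k hk with ⟨h, h'⟩ | ⟨h, h'⟩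
    · rcases hsgn l hl with ⟨g, g'⟩ | ⟨g, g'⟩
      · rw [hUp k h, hρp k h, hUp l g, hρp l g]
        exact hcp k h' l g' hkl
      · have hb := hB k hk
        have hu := hUK l hl
        have hle : ρ l < d := by
          rw [hρn l g]
          have := hπn l g'
          omega
        have := h1 k h (ρ l) d hle (by omega)
        omega
    · rcases hsgn l hl with ⟨g, g'⟩ | ⟨g, g'⟩
      · have hb := hB k hk
        have hu := hUK l hl
        have hle : d < ρ l := by
          rw [hρp l g]
          have := hπp l g'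
          omega
        have := h2 k h d (ρ l) hle (hρle l hl)
        omega
      · rw [hUn k h, hρn k h, hUn l g, hρn l g]
        exact hcn k h' l g' hkl
  -- the linear system
  let qz : Fin d → ℤ := fun k => (E (ρ k) k : ℤ) - U k
  have hqz : ∀ k, qz k = (E (ρ k) k : ℤ) - U k := fun k => rfl
  let ε : ℝ := α ^ (-K)
  have hε0 : 0 < ε := zpow_pos hα0 _
  have hmono : ∀ m : ℤ, m ≤ -K → α ^ m ≤ ε := fun m hm => zpow_le_zpow_right₀ hα.le hm
  have hpos : ∀ m : ℤ, 0 < α ^ m := fun m => zpow_pos hα0 _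
  let A : Matrix R R ℝ := fun k l =>
    α ^ ((E (ρ l) k : ℤ) - U l - qz k) - α ^ ((E d k : ℤ) - U l - qz k)
  let b : R → ℝ := fun k => 1 - α ^ ((E d k : ℤ) - qz k)
  have hcardR : (Fintype.card R : ℝ) ≤ d := by
    have : Fintype.card R ≤ d := by
      rw [Fintype.card_coe]
      have := Finset.card_le_univ R
      simpa using this
    exact_mod_cast this
  have hεd : ((Fintype.card R : ℝ) + 1) * ε ≤ 1 / 4 := by
    have : ((Fintype.card R : ℝ) + 1) * ε ≤ ((d : ℝ) + 1) * ε :=
      mul_le_mul_of_nonneg_right (by linarith) hε0.le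
    exact this.trans hKα
  obtain ⟨μ, hμ, hμ2⟩ := solve_near_one A b ε hε0.le hεd
    (by
      intro k l hkl
      have e1 := hmono ((E (ρ l) k : ℤ) - U l - qz k) (by
        have := hC k k.2 l l.2 (fun h => hkl (Subtype.ext h))
        have := hqz k
        omega)
      have e2 := hmono ((E d k : ℤ) - U l - qz k) (by
        have := hB k k.2
        have := hUK l l.2
        have := hqz k
        omega)
      have e3 := hpos ((E (ρ l) k : ℤ) - U l - qz k)
      have e4 := hpos ((E d k : ℤ) - U l - qz k)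
      show |α ^ ((E (ρ l) k : ℤ) - U l - qz k) - α ^ ((E d k : ℤ) - U l - qz k)| ≤ ε
      rw [abs_le]
      constructor <;> linarith)
    (by
      intro k
      have e0 : (E (ρ k) k : ℤ) - U k - qz k = 0 := by rw [hqz]; ring
      have e2 := hmono ((E d k : ℤ) - U k - qz k) (by
        have := hB k k.2
        have := hUK k k.2
        have := hqz k
        omega)
      have e4 := hpos ((E d k : ℤ) - U k - qz k)
      show |α ^ ((E (ρ k) k : ℤ) - U k - qz k) - α ^ ((E d k : ℤ) - U k - qz k) - 1| ≤ ε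
      rw [e0, zpow_zero, abs_le]
      constructor <;> linarith)
    (by
      intro k
      have e2 := hmono ((E d k : ℤ) - qz k) (by
        have := hB k k.2
        have := hqz k
        omega)
      have e4 := hpos ((E d k : ℤ) - qz k)
      show |1 - α ^ ((E d k : ℤ) - qz k) - 1| ≤ ε
      rw [abs_le]
      constructor <;> linarith)
  -- the weights
  let w : R → ℝ := fun l => α ^ (-U l) * μ l
  have hw0 : ∀ l, 0 ≤ w l := fun l => mul_nonneg (hpos _).le (hμ2 l).1
  have hw2 : ∀ l, w l ≤ 2 * ε := by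
    intro l
    have e1 := hmono (-U l) (by have := hUK l l.2; omega)
    have e2 := hμ2 l
    calc w l ≤ ε * 2 := mul_le_mul e1 e2.2 e2.1 hε0.le
      _ = 2 * ε := by ring
  have hwsum : ∑ l, w l ≤ 1 := by
    have : ∑ l, w l ≤ ∑ _l : R, 2 * ε := Finset.sum_le_sum (fun l _ => hw2 l)
    rw [Finset.sum_const, Finset.card_univ, nsmul_eq_mul] at this
    nlinarith
  have heq : ∀ k : Fin d, k ∈ R →
      ∑ l : R, w l * (α ^ (E (ρ l) k : ℤ) - α ^ (E d k : ℤ)) = α ^ (qz k) - α ^ (E d k : ℤ) := by
    intro k hk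
    have := hμ ⟨k, hk⟩
    have h' : ∑ l : R, w l * (α ^ (E (ρ l) k : ℤ) - α ^ (E d k : ℤ)) =
        α ^ (qz k) * ∑ l : R, A ⟨k, hk⟩ l * μ l := by
      rw [Finset.mul_sum]
      apply Finset.sum_congr rfl
      intro l _
      show α ^ (-U l) * μ l * (α ^ (E (ρ l) k : ℤ) - α ^ (E d k : ℤ)) = α ^ (qz k) *
        ((α ^ ((E (ρ l) k : ℤ) - U l - qz k) - α ^ ((E d k : ℤ) - U l - qz k)) * μ l)
      rw [zpow_sub₀ hαne _ (qz k), zpow_sub₀ hαne _ (qz k), zpow_sub₀ hαne _ (U l),
        zpow_sub₀ hαne _ (U l), zpow_neg]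
      have := (hpos (qz k)).ne'
      have := (hpos (U l)).ne'
      field_simp
    rw [h', this]
    show α ^ (qz k) * (1 - α ^ ((E d k : ℤ) - qz k)) = _
    rw [zpow_sub₀ hαne (E d k : ℤ) (qz k)]
    have := (hpos (qz k)).ne'
    field_simp
  -- the exponent vector
  choose! rep hrepR hrepv using hrep
  let Q : Fin d → ℤ := fun k => if val k = 0 then E d k else
    (E d k : ℤ) + (qz (rep k) - E d (rep k))
  have hQ0 : ∀ k, (E d k : ℤ) ≤ Q k := by
    intro k
    by_cases hk : val k = 0
    · simp only [Q, if_pos hk]; exact le_rfl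
    · simp only [Q, if_neg hk]
      have := hB (rep k) (hrepR k hk)
      have := hqz (rep k)
      omega
  have hQR : ∀ k ∈ R, Q k = qz k := by
    intro k hk
    have hk0 := hRne k hk
    have hrk : rep k = k := hRinj _ (hrepR k hk0) _ hk (hrepv k hk0)
    simp only [Q, if_neg hk0, hrk]
    ring
  have hallE : ∀ k r, val r = val k → ∀ i, i ≤ 2 * d →
      (E i k : ℤ) = (E i r : ℤ) + ((E d k : ℤ) - E d r) := by
    intro k r hr i hi
    rcases lt_trichotomy i d with h | h | h
    · have := h5 r k hr i d h (by omega)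
      omega
    · subst h; omega
    · have := h5 r k hr d i h (by omega)
      omega
  have hall0 : ∀ k, val k = 0 → ∀ i, i ≤ 2 * d → (E i k : ℤ) = E d k := by
    intro k hk i hi
    rcases lt_trichotomy i d with h | h | h
    · exact h3 k hk i d h (by omega)
    · subst h; rfl
    · exact (h3 k hk d i h (by omega)).symm
  have hfull : ∀ k : Fin d, (1 - ∑ l, w l) * α ^ (E d k : ℤ) + ∑ l : R, w l * α ^ (E (ρ l) k : ℤ)
      = α ^ (Q k) := by
    intro k
    by_cases hk : val k = 0
    · have hs : ∑ l : R, w l * α ^ (E (ρ l) k : ℤ) = (∑ l, w l) * α ^ (E d k : ℤ) := by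
        rw [Finset.sum_mul]
        apply Finset.sum_congr rfl
        intro l _
        rw [hall0 k hk (ρ l) (hρle l l.2)]
      rw [hs]
      simp only [Q, if_pos hk]
      ring
    · have hr := hrepR k hk
      have hrv := hrepv k hk
      have he := heq (rep k) hr
      have hsd : ∑ l : R, w l * (α ^ (E (ρ l) (rep k) : ℤ) - α ^ (E d (rep k) : ℤ)) =
          ∑ l : R, w l * α ^ (E (ρ l) (rep k) : ℤ) - (∑ l, w l) * α ^ (E d (rep k) : ℤ) := by
        rw [Finset.sum_mul, ← Finset.sum_sub_distrib]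
        apply Finset.sum_congr rfl
        intro l _
        ring
      rw [hsd] at he
      have hs : ∑ l : R, w l * α ^ (E (ρ l) k : ℤ) =
          (∑ l : R, w l * α ^ (E (ρ l) (rep k) : ℤ)) * α ^ ((E d k : ℤ) - E d (rep k)) := by
        rw [Finset.sum_mul]
        apply Finset.sum_congr rfl
        intro l _
        rw [hallE k (rep k) hrv (ρ l) (hρle l l.2), zpow_add₀ hαne]
        ring
      have hd : α ^ (E d k : ℤ) = α ^ (E d (rep k) : ℤ) * α ^ ((E d k : ℤ) - E d (rep k)) := by
        rw [← zpow_add₀ hαne]; congr 1; ring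
      have hq : α ^ (Q k) = α ^ (qz (rep k)) * α ^ ((E d k : ℤ) - E d (rep k)) := by
        rw [← zpow_add₀ hαne]
        simp only [Q, if_neg hk]
        congr 1; ring
      rw [hs, hq]
      have he' : α ^ (qz (rep k)) = (1 - ∑ l, w l) * α ^ (E d (rep k) : ℤ) +
          ∑ l : R, w l * α ^ (E (ρ l) (rep k) : ℤ) := by linarith
      rw [he', hd]
      ring
  obtain ⟨k0, hk0⟩ := h6
  have hr0 := hrepR k0 hk0
  refine ⟨fun k => (Q k).toNat, insert d (ρ '' (R : Set (Fin d))), ?_, ?_, ?_⟩
  · intro i hi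
    rcases hi with rfl | ⟨l, hl, rfl⟩
    · omega
    · exact hρle l hl
  · intro i hi hcon
    rcases hi with rfl | ⟨l, hl, rfl⟩
    · have := congrFun hcon (rep k0)
      have h7 := hQR _ hr0
      have h8 := hB _ hr0
      have h9 := hqz (rep k0)
      omega
    · have := congrFun hcon l
      have h7 := hQR _ hl
      have h8 := hB _ hl
      have h9 := hqz l
      have h10 := hUK l hl
      omega
  · have hpt : pt α (fun k => (Q k).toNat) =
        ∑ o : Option R, (o.elim (1 - ∑ l, w l) w) • (o.elim (pt α (E d)) (fun l => pt α (E (ρ l)))) := by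
      rw [Fintype.sum_option]
      ext k
      simp only [Option.elim, Pi.add_apply, Pi.smul_apply, Finset.sum_apply, smul_eq_mul, pt]
      have h7 := hfull k
      have h8 : ((Q k).toNat : ℤ) = Q k := Int.toNat_of_nonneg (by have := hQ0 k; omega)
      rw [← h8] at h7
      simp only [zpow_natCast] at h7
      exact h7.symm
    rw [hpt]
    apply (convex_convexHull ℝ _).sum_mem
    · intro o _
      cases o with
      | none => simp only [Option.elim]; linarith
      | some l => exact hw0 l
    · rw [Fintype.sum_option]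
      simp only [Option.elim]
      ring
    · intro o _
      apply subset_convexHull
      cases o with
      | none => exact ⟨d, Set.mem_insert _ _, rfl⟩
      | some l => exact ⟨ρ l, Set.mem_insert_of_mem _ ⟨l, l.2, rfl⟩, rfl⟩

end Pool.Agent.X53.Exp
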