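import Mathlib

/-! Hoffman's criterion (the direction that bounds the Helly number): if all finite subsets of `S`
that are empty in `S` have at most `N` points, and `S ∩ conv A` is finite for finite `A ⊆ S`, then
finite families of convex sets satisfy the Helly property with number `N` with respect to `S`. -/

namespace Pool.Agent.X53.Exp

open Finset Classical

variable {E : Type*} [AddCommGroup E] [Module ℝ E]

/-- `A` is empty in `S`: every point of `S` in the convex hull of `A` is a vertex of that hull,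
i.e. it belongs to `A` and is not in the convex hull of the remaining points of `A`. -/
def EmptyIn (S : Set E) (A : Finset E) : Prop :=
  ∀ z ∈ S, z ∈ convexHull ℝ (A : Set E) → z ∈ A ∧ z ∉ convexHull ℝ ((A : Set E) \ {z})

theorem ext_aux {A B : Set E} {z y : E} (hzA : z ∈ A) (hz : z ∉ convexHull ℝ (A \ {z}))
    (hy : y ∈ convexHull ℝ A) (hyz : y ≠ z) (hB : B ⊆ A \ {z}) :
    z ∉ convexHull ℝ (insert y B) := by
  intro h
  rcases B.eq_empty_or_nonempty with rfl | hBne
  · simp at h
    exact hyz h.symm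
  have hAne : (A \ {z}).Nonempty := hBne.mono hB
  rw [convexHull_insert hBne, mem_convexJoin] at h
  obtain ⟨y', hy', b, hb, hseg⟩ := h
  rw [Set.mem_singleton_iff] at hy'
  subst hy'
  have hAi : A = insert z (A \ {z}) := by
    rw [Set.insert_sdiff_singleton, Set.insert_eq_of_mem hzA]
  rw [hAi, convexHull_insert hAne, mem_convexJoin] at hy
  obtain ⟨z', hz', c, hc, hseg'⟩ := hy
  rw [Set.mem_singleton_iff] at hz'
  subst hz'
  obtain ⟨s, t, hs, ht, hst, hz1⟩ := hseg
  obtain ⟨l, m, hl, hm, hlm, hy1⟩ := hseg'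
  have hb' : b ∈ convexHull ℝ (A \ {z'}) := convexHull_mono hB hb
  by_cases hsl : s * l < 1
  · apply hz
    have hpos : 0 < 1 - s * l := by linarith
    have hconv := (convex_convexHull ℝ (A \ {z'})) hc hb'
      (a := s * m / (1 - s * l)) (b := t / (1 - s * l))
      (by positivity) (by positivity)
      (by rw [← add_div, div_eq_one_iff_eq hpos.ne']; nlinarith)
    have : (s * m / (1 - s * l)) • c + (t / (1 - s * l)) • b = z' := by
      have h1 : (1 - s * l) • z' = (s * m) • c + t • b := by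
        rw [sub_smul, one_smul, sub_eq_iff_eq_add]
        conv_lhs => rw [← hz1, ← hy1]
        rw [smul_add, smul_smul, smul_smul]
        abel
      have h2 : z' = (1 - s * l)⁻¹ • ((s * m) • c + t • b) := by
        rw [← h1, smul_smul, inv_mul_cancel₀ hpos.ne', one_smul]
      rw [h2, smul_add, smul_smul, smul_smul]
      congr 2 <;> rw [div_eq_inv_mul]
    rw [this] at hconv
    exact hconv
  · have hs1 : s ≤ 1 := by linarith
    have hl1 : l ≤ 1 := by linarith
    have hsl1 : 1 ≤ s * l := not_lt.1 hsl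
    have hl' : l = 1 := by nlinarith
    have hm' : m = 0 := by linarith
    apply hyz
    rw [← hy1, hl', hm']
    simp

/-- critical sets -/
def Crit (S : Set E) (A : Finset E) : Prop :=
  ∀ z ∈ S, ∃ a ∈ A, z ∉ convexHull ℝ ((A : Set E) \ {a})

theorem crit_vertex {S : Set E} {A : Finset E} (hA : Crit S A) (hAS : (A : Set E) ⊆ S)
    {a : E} (ha : a ∈ A) : a ∉ convexHull ℝ ((A : Set E) \ {a}) := by
  obtain ⟨b, hb, hab⟩ := hA a (hAS ha)
  by_cases h : a = b
  · rw [← h] at hab; exact hab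
  · exact absurd (subset_convexHull ℝ ((A : Set E) \ {b}) (show a ∈ (A : Set E) \ {b} from ⟨ha, h⟩)) hab

theorem crit_descent {S : Set E} {A : Finset E} (hAS : (A : Set E) ⊆ S) (hA : Crit S A)
    (hne : ¬ EmptyIn S A) : ∃ A' : Finset E, (A' : Set E) ⊆ S ∧ Crit S A' ∧ A'.card = A.card ∧
      S ∩ convexHull ℝ (A' : Set E) ⊂ S ∩ convexHull ℝ (A : Set E) := by
  have hvert := fun a ha => crit_vertex hA hAS (a := a) ha
  -- a point of S in the hull, not in A
  have hex : ∃ y, y ∈ S ∧ y ∈ convexHull ℝ (A : Set E) ∧ y ∉ A := by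
    by_contra hcon
    push Not at hcon
    apply hne
    intro z hz hzc
    exact ⟨hcon z hz hzc, hvert z (hcon z hz hzc)⟩
  let J : E → Finset E := fun y => A.filter (fun a => y ∉ convexHull ℝ ((A : Set E) \ {a}))
  -- choose y with |J y| minimal
  have hmin : ∃ y, (y ∈ S ∧ y ∈ convexHull ℝ (A : Set E) ∧ y ∉ A) ∧
      ∀ z, (z ∈ S ∧ z ∈ convexHull ℝ (A : Set E) ∧ z ∉ A) → (J y).card ≤ (J z).card := by
    obtain ⟨y0, hy0⟩ := hex
    obtain ⟨n, hn⟩ : ∃ n, ∃ y, (y ∈ S ∧ y ∈ convexHull ℝ (A : Set E) ∧ y ∉ A) ∧ (J y).card = n :=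
      ⟨_, y0, hy0, rfl⟩
    have hex' : ∃ n, ∃ y, (y ∈ S ∧ y ∈ convexHull ℝ (A : Set E) ∧ y ∉ A) ∧ (J y).card = n :=
      ⟨n, hn⟩
    obtain ⟨y, hy, hyn⟩ := Nat.find_spec hex'
    refine ⟨y, hy, fun z hz => ?_⟩
    rw [hyn]
    exact Nat.find_min' hex' ⟨z, hz, rfl⟩
  obtain ⟨y, ⟨hyS, hyc, hyA⟩, hymin⟩ := hmin
  obtain ⟨j, hjA, hj⟩ := hA y hyS
  have hjJ : j ∈ J y := Finset.mem_filter.2 ⟨hjA, hj⟩
  have hyA' : y ∉ A.erase j := fun h => hyA (Finset.mem_of_mem_erase h)
  have hyj : y ≠ j := fun h => hyA (h ▸ hjA)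
  refine ⟨insert y (A.erase j), ?_, ?_, ?_, ?_⟩
  · intro x hx
    rw [Finset.mem_coe, Finset.mem_insert] at hx
    rcases hx with rfl | hx
    · exact hyS
    · exact hAS (Finset.mem_of_mem_erase hx)
  · intro z hzS
    by_contra hcon
    push Not at hcon
    have h1 := hcon y (Finset.mem_insert_self _ _)
    have hz1 : z ∈ convexHull ℝ ((A : Set E) \ {j}) := by
      refine convexHull_mono ?_ h1
      intro x hx
      have hx1 := hx.1
      have hx2 := hx.2
      rw [Finset.mem_coe, Finset.mem_insert] at hx1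
      rcases hx1 with rfl | hx1
      · exact absurd rfl hx2
      · rw [Finset.mem_erase] at hx1
        exact ⟨hx1.2, hx1.1⟩
    have hzc : z ∈ convexHull ℝ (A : Set E) := convexHull_mono (fun x hx => hx.1) hz1
    have hins : ∀ i, i ∈ A → i ≠ j →
        z ∈ convexHull ℝ (insert y (((A : Set E) \ {j}) \ {i})) := by
      intro i hiA hij
      refine convexHull_mono ?_ (hcon i (Finset.mem_insert_of_mem (Finset.mem_erase.2 ⟨hij, hiA⟩)))
      intro x hx
      have hx1 := hx.1
      have hx2 := hx.2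
      rw [Finset.mem_coe, Finset.mem_insert] at hx1
      rcases hx1 with rfl | hx1
      · exact Set.mem_insert _ _
      · rw [Finset.mem_erase] at hx1
        exact Set.mem_insert_of_mem _ ⟨⟨hx1.2, hx1.1⟩, hx2⟩
    by_cases hzA : z ∈ A
    · have hzj : z ≠ j := by
        rintro rfl
        exact hvert z hzA hz1
      have := hins z hzA hzj
      refine ext_aux (A := (A : Set E)) (B := ((A : Set E) \ {j}) \ {z}) hzA (hvert z hzA) hyc
        (fun h => hyA (h ▸ hzA)) ?_ this
      intro x hx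
      exact ⟨hx.1.1, hx.2⟩
    · have hle := hymin z ⟨hzS, hzc, hzA⟩
      have hsub : J z ⊆ (J y).erase j := by
        intro i hi
        rw [Finset.mem_filter] at hi
        have hij : i ≠ j := by
          rintro rfl
          exact hi.2 hz1
        rw [Finset.mem_erase, Finset.mem_filter]
        refine ⟨hij, hi.1, fun hyi => hi.2 ?_⟩
        have h2 := hins i hi.1 hij
        have : insert y (((A : Set E) \ {j}) \ {i}) ⊆ convexHull ℝ ((A : Set E) \ {i}) := by
          intro x hx
          rcases hx with rfl | hx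
          · exact hyi
          · exact subset_convexHull ℝ _ ⟨hx.1.1, hx.2⟩
        have h3 := convexHull_mono this h2
        rwa [(convex_convexHull ℝ _).convexHull_eq] at h3
      have := Finset.card_le_card hsub
      rw [Finset.card_erase_of_mem hjJ] at this
      have hpos : 0 < (J y).card := Finset.card_pos.2 ⟨j, hjJ⟩
      omega
  · rw [Finset.card_insert_of_notMem hyA', Finset.card_erase_of_mem hjA]
    have : 0 < A.card := Finset.card_pos.2 ⟨j, hjA⟩
    omega
  · have hsubset : ((insert y (A.erase j) : Finset E) : Set E) ⊆ convexHull ℝ (A : Set E) := by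
      intro x hx
      rw [Finset.mem_coe, Finset.mem_insert] at hx
      rcases hx with rfl | hx
      · exact hyc
      · exact subset_convexHull ℝ _ (Finset.mem_of_mem_erase hx)
    have hsub2 : convexHull ℝ ((insert y (A.erase j) : Finset E) : Set E) ⊆
        convexHull ℝ (A : Set E) := by
      have := convexHull_mono (𝕜 := ℝ) hsubset
      rwa [(convex_convexHull ℝ _).convexHull_eq] at this
    refine ⟨fun x hx => ⟨hx.1, hsub2 hx.2⟩, fun hcon => ?_⟩
    have hj1 : j ∈ S ∩ convexHull ℝ (A : Set E) := ⟨hAS hjA, subset_convexHull ℝ _ hjA⟩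
    have hj2 := (hcon hj1).2
    have heq : ((insert y (A.erase j) : Finset E) : Set E) = insert y ((A : Set E) \ {j}) := by
      ext x
      simp [Finset.mem_insert, Finset.mem_erase, and_comm]
    rw [heq] at hj2
    exact ext_aux (A := (A : Set E)) (B := (A : Set E) \ {j}) hjA (hvert j hjA) hyc hyj
      (fun x hx => hx) hj2

theorem exists_empty_of_crit {S : Set E}
    (hfin : ∀ A : Finset E, (A : Set E) ⊆ S → (S ∩ convexHull ℝ (A : Set E)).Finite)
    (m : ℕ) : ∀ A : Finset E, (A : Set E) ⊆ S → Crit S A →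
      (S ∩ convexHull ℝ (A : Set E)).ncard ≤ m →
      ∃ B : Finset E, (B : Set E) ⊆ S ∧ EmptyIn S B ∧ B.card = A.card := by
  induction m with
  | zero =>
    intro A hAS hA hm
    by_cases h : EmptyIn S A
    · exact ⟨A, hAS, h, rfl⟩
    · obtain ⟨A', hA'S, hA', hcard, hss⟩ := crit_descent hAS hA h
      have := Set.ncard_lt_ncard hss (hfin A hAS)
      omega
  | succ m ih =>
    intro A hAS hA hm
    by_cases h : EmptyIn S A
    · exact ⟨A, hAS, h, rfl⟩
    · obtain ⟨A', hA'S, hA', hcard, hss⟩ := crit_descent hAS hA h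
      have := Set.ncard_lt_ncard hss (hfin A hAS)
      obtain ⟨B, hBS, hB, hBc⟩ := ih A' hA'S hA' (by omega)
      exact ⟨B, hBS, hB, by omega⟩

/-- **Hoffman's criterion**, upper bound. -/
theorem helly_of_empty_bound {S : Set E} {N : ℕ}
    (hfin : ∀ A : Finset E, (A : Set E) ⊆ S → (S ∩ convexHull ℝ (A : Set E)).Finite)
    (hN : ∀ A : Finset E, (A : Set E) ⊆ S → EmptyIn S A → A.card ≤ N)
    (F : Finset (Set E)) (hF : ∀ C ∈ F, Convex ℝ C)
    (hG : ∀ G ⊆ F, G.card ≤ N → ∃ x ∈ S, ∀ C ∈ G, x ∈ C) :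
    ∃ x ∈ S, ∀ C ∈ F, x ∈ C := by
  by_contra hcon
  -- a minimal subfamily without a common point
  have hex : ∃ n, ∃ G ⊆ F, (¬ ∃ x ∈ S, ∀ C ∈ G, x ∈ C) ∧ G.card = n := ⟨_, F, subset_rfl, hcon, rfl⟩
  obtain ⟨G, hGF, hGn, hGc⟩ := Nat.find_spec hex
  have hmin : ∀ G' ⊂ G, ∃ x ∈ S, ∀ C ∈ G', x ∈ C := by
    intro G' hG'
    by_contra h
    have h1 := Nat.find_min' hex ⟨G', hG'.1.trans hGF, h, rfl⟩
    have h2 := Finset.card_lt_card hG'
    omega
  have hbig : N < G.card := by
    by_contra h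
    exact hGn (hG G hGF (not_lt.1 h))
  have hch : ∀ C : Set E, ∃ x, C ∈ G → x ∈ S ∧ ∀ C' ∈ G, C' ≠ C → x ∈ C' := by
    intro C
    by_cases hC : C ∈ G
    · obtain ⟨x, hxS, hx⟩ := hmin (G.erase C) (Finset.erase_ssubset hC)
      exact ⟨x, fun _ => ⟨hxS, fun C' hC' hne => hx C' (Finset.mem_erase.2 ⟨hne, hC'⟩)⟩⟩
    · exact ⟨0, fun h => absurd h hC⟩
  choose x hx using hch
  have hxn : ∀ C ∈ G, x C ∉ C := by
    intro C hC hcon'
    apply hGn
    refine ⟨x C, (hx C hC).1, fun C' hC' => ?_⟩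
    by_cases h : C' = C
    · rw [h]; exact hcon'
    · exact (hx C hC).2 C' hC' h
  have hinj : Set.InjOn x (G : Set (Set E)) := by
    intro C hC C' hC' h
    by_contra hne
    apply hxn C hC
    rw [h]
    exact (hx C' hC').2 C hC hne
  set A : Finset E := G.image x with hA
  have hAc : A.card = G.card := Finset.card_image_of_injOn hinj
  have hAS : (A : Set E) ⊆ S := by
    intro a ha
    rw [Finset.mem_coe, hA, Finset.mem_image] at ha
    obtain ⟨C, hC, rfl⟩ := ha
    exact (hx C hC).1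
  have hcrit : Crit S A := by
    intro z hz
    have : ∃ C ∈ G, z ∉ C := by
      by_contra h
      push Not at h
      exact hGn ⟨z, hz, h⟩
    obtain ⟨C, hC, hzC⟩ := this
    refine ⟨x C, Finset.mem_image_of_mem _ hC, fun hzc => hzC ?_⟩
    have hsub : (A : Set E) \ {x C} ⊆ C := by
      rintro a ⟨ha, hane⟩
      rw [Finset.mem_coe, hA, Finset.mem_image] at ha
      obtain ⟨C', hC', rfl⟩ := ha
      have hne : C ≠ C' := fun h => hane (by rw [h]; rfl)
      exact (hx C' hC').2 C hC hne
    exact convexHull_min hsub (hF C (hGF hC)) hzc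
  obtain ⟨B, hBS, hB, hBc⟩ := exists_empty_of_crit hfin _ A hAS hcrit le_rfl
  have := hN B hBS hB
  omega

end Pool.Agent.X53.Exp
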