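import Mathlib

/-! Ramsey's theorem for pairs with finitely many colours, finite form. -/

namespace Pool.Agent.X53.Exp

open Finset

/-- end-homogeneous subsets -/
theorem endHom (C : Type) [Fintype C] [DecidableEq C] [Nonempty C] (k : ℕ) :
    ∃ N : ℕ, ∀ col : ℕ → ℕ → C, ∀ s : Finset ℕ, N ≤ s.card → ∃ t ⊆ s, t.card = k ∧
      ∃ g : ℕ → C, ∀ x ∈ t, ∀ y ∈ t, x < y → col x y = g x := by
  induction k with
  | zero =>
    refine ⟨0, fun col s _ => ⟨∅, by simp, by simp, fun _ => Classical.arbitrary C, by simp⟩⟩
  | succ k ih =>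
    obtain ⟨N, hN⟩ := ih
    refine ⟨Fintype.card C * N + 1, fun col s hs => ?_⟩
    have hne : s.Nonempty := by
      rw [← Finset.card_pos]; omega
    set x := s.min' hne with hx
    have hxs : x ∈ s := s.min'_mem hne
    have hcard : (Finset.univ : Finset C).card * N ≤ (s.erase x).card := by
      rw [Finset.card_erase_of_mem hxs, Finset.card_univ]; omega
    obtain ⟨c, -, hc⟩ := Finset.exists_le_card_fiber_of_mul_le_card_of_maps_to
      (s := s.erase x) (t := (Finset.univ : Finset C)) (f := fun y => col x y) (n := N)
      (fun _ _ => Finset.mem_univ _) Finset.univ_nonempty hcard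
    obtain ⟨t, hts, htc, g, hg⟩ := hN col _ hc
    have hxt : x ∉ t := fun h => by
      have := hts h
      simp at this
    have hlt : ∀ y ∈ t, x < y := by
      intro y hy
      have hy' := hts hy
      rw [Finset.mem_filter, Finset.mem_erase] at hy'
      exact lt_of_le_of_ne (s.min'_le y hy'.1.2) (Ne.symm hy'.1.1)
    refine ⟨insert x t, ?_, ?_, fun z => if z = x then c else g z, ?_⟩
    · intro y hy
      rw [Finset.mem_insert] at hy
      rcases hy with rfl | hy
      · exact hxs
      · have hy' := hts hy
        rw [Finset.mem_filter, Finset.mem_erase] at hy'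
        exact hy'.1.2
    · rw [Finset.card_insert_of_notMem hxt, htc]
    · intro a ha b hb hab
      rw [Finset.mem_insert] at ha hb
      rcases ha with rfl | ha
      · rcases hb with hb | hb
        · omega
        · have hb' := hts hb
          rw [Finset.mem_filter] at hb'
          simp only [if_true]
          exact hb'.2
      · rcases hb with rfl | hb
        · have := hlt a ha
          omega
        · have hne' : a ≠ x := by
            have := hlt a ha
            omega
          simp only [if_neg hne']
          exact hg a ha b hb hab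

/-- Ramsey's theorem for pairs. -/
theorem ramsey (C : Type) [Fintype C] [DecidableEq C] [Nonempty C] (k : ℕ) :
    ∃ N : ℕ, ∀ col : ℕ → ℕ → C, ∀ s : Finset ℕ, N ≤ s.card → ∃ t ⊆ s, k ≤ t.card ∧
      ∃ c : C, ∀ x ∈ t, ∀ y ∈ t, x < y → col x y = c := by
  obtain ⟨N, hN⟩ := endHom C (Fintype.card C * k)
  refine ⟨N, fun col s hs => ?_⟩
  obtain ⟨t, hts, htc, g, hg⟩ := hN col s hs
  obtain ⟨c, -, hc⟩ := Finset.exists_le_card_fiber_of_mul_le_card_of_maps_to
      (s := t) (t := (Finset.univ : Finset C)) (f := g) (n := k)
      (fun _ _ => Finset.mem_univ _) Finset.univ_nonempty (by rw [Finset.card_univ, htc])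
  refine ⟨t.filter (fun x => g x = c), fun x hx => hts (Finset.mem_filter.1 hx).1, hc, c, ?_⟩
  intro x hx y hy hxy
  rw [Finset.mem_filter] at hx hy
  rw [hg x hx.1 y hy.1 hxy, hx.2]

end Pool.Agent.X53.Exp
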