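import Mathlib
import Pool.Agent.X53.Exp.Mat
import Pool.Agent.X53.Exp.Core
import Pool.Agent.X53.Exp.Ram
import Pool.Agent.X53.Exp.Hoff

/-! Empty subsets of exponential lattices have bounded size. -/

namespace Pool.Agent.X53.Exp

open Finset

/-- The `d`-dimensional exponential lattice `L_d(α) = {α^n : n ∈ ℕ}^d`. -/
def expLattice (d : ℕ) (α : ℝ) : Set (Fin d → ℝ) := {x | ∀ k, ∃ n : ℕ, x k = α ^ n}

theorem pt_mem {d : ℕ} (α : ℝ) (e : Fin d → ℕ) : pt α e ∈ expLattice d α := fun k => ⟨e k, rfl⟩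

theorem exists_pt {d : ℕ} {α : ℝ} {x : Fin d → ℝ} (hx : x ∈ expLattice d α) :
    ∃ e : Fin d → ℕ, x = pt α e := by
  choose e he using hx
  exact ⟨e, funext he⟩

/-- `f none = 0`, `f (some k) = ` the `k`-th exponent. -/
def cf {d : ℕ} (k : Option (Fin d)) (x : Fin d → ℕ) : ℤ := k.elim 0 (fun k => (x k : ℤ))

theorem growth (g : ℕ → ℤ) (M : ℕ) (h : ∀ i j, i < j → j ≤ M → g i < g j) :
    ∀ i j, i ≤ j → j ≤ M → (j : ℤ) - i ≤ g j - g i := by
  intro i j hij
  induction j, hij using Nat.le_induction with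
  | base => intro _; omega
  | succ j hij ih =>
    intro hj
    have := ih (by omega)
    have := h j (j + 1) (by omega) hj
    push_cast
    omega

theorem empty_bound_pos (d : ℕ) (hd : 0 < d) (α : ℝ) (hα : 1 < α) : ∃ N : ℕ,
    ∀ A : Finset (Fin d → ℝ), (A : Set (Fin d → ℝ)) ⊆ expLattice d α →
      EmptyIn (expLattice d α) A → A.card ≤ N := by
  classical
  have hα0 : 0 < α := by linarith
  -- choose K
  obtain ⟨K, hK1, hKα⟩ : ∃ K : ℕ, 1 ≤ K ∧ ((d : ℝ) + 1) * α ^ (-(K : ℤ)) ≤ 1 / 4 := by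
    obtain ⟨K, hK⟩ := pow_unbounded_of_one_lt (4 * ((d : ℝ) + 1)) hα
    refine ⟨K + 1, by omega, ?_⟩
    rw [zpow_neg, zpow_natCast]
    have h1 : α ^ K ≤ α ^ (K + 1) := pow_le_pow_right₀ hα.le (by omega)
    have h2 : 0 < α ^ (K + 1) := pow_pos hα0 _
    rw [← div_eq_mul_inv, div_le_iff₀ h2]
    linarith
  set G : ℕ := 2 * K with hG
  set M : ℕ := 2 * d * G with hM
  obtain ⟨N, hN⟩ := ramsey (Option (Fin d) → Option (Fin d) → SignType) (M + 1)
  refine ⟨N, fun A hAL hA => ?_⟩
  by_contra hcard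
  push Not at hcard
  -- enumerate A
  have hP : ∃ P : ℕ → (Fin d → ℝ), (∀ i < A.card, P i ∈ A) ∧
      ∀ i < A.card, ∀ j < A.card, P i = P j → i = j := by
    refine ⟨fun i => if h : i < A.card then (A.equivFin.symm ⟨i, h⟩ : Fin d → ℝ) else 0, ?_, ?_⟩
    · intro i hi
      simp only [dif_pos hi]
      exact (A.equivFin.symm ⟨i, hi⟩).2
    · intro i hi j hj h
      simp only [dif_pos hi, dif_pos hj] at h
      have h2 := A.equivFin.symm.injective (Subtype.ext h)
      simpa using h2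
  obtain ⟨P, hPA, hPinj⟩ := hP
  have hpe : ∀ i, ∃ e : Fin d → ℕ, i < A.card → P i = pt α e := by
    intro i
    by_cases hi : i < A.card
    · obtain ⟨e, he⟩ := exists_pt (hAL (Finset.mem_coe.2 (hPA i hi)))
      exact ⟨e, fun _ => he⟩
    · exact ⟨0, fun h => absurd h hi⟩
  choose p hp using hpe
  -- Ramsey
  obtain ⟨t, htr, htc, c, hc⟩ := hN
    (fun i j k l => SignType.sign ((cf k (p j) - cf l (p j)) - (cf k (p i) - cf l (p i))))
    (Finset.range A.card) (by rw [Finset.card_range]; omega)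
  obtain ⟨t', ht't, ht'c⟩ := Finset.exists_subset_card_eq htc
  let em := t'.orderEmbOfFin ht'c
  let τ : ℕ → ℕ := fun i => if h : i < M + 1 then em ⟨i, h⟩ else 0
  have hτmem : ∀ i, i ≤ M → τ i ∈ t := by
    intro i hi
    have : τ i = em ⟨i, by omega⟩ := dif_pos (by omega)
    rw [this]
    exact ht't (Finset.orderEmbOfFin_mem _ _ _)
  have hτlt : ∀ i j, i < j → j ≤ M → τ i < τ j := by
    intro i j hij hj
    have h1 : τ i = em ⟨i, by omega⟩ := dif_pos (by omega)
    have h2 : τ j = em ⟨j, by omega⟩ := dif_pos (by omega)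
    rw [h1, h2]
    exact em.strictMono (by simpa using hij)
  have hτA : ∀ i, i ≤ M → τ i < A.card := fun i hi => Finset.mem_range.1 (htr (hτmem i hi))
  -- homogeneity
  have hhom : ∀ k l : Option (Fin d), ∀ i j, i < j → j ≤ M →
      SignType.sign ((cf k (p (τ j)) - cf l (p (τ j))) - (cf k (p (τ i)) - cf l (p (τ i)))) =
        c k l := by
    intro k l i j hij hj
    have := hc (τ i) (hτmem i (by omega)) (τ j) (hτmem j hj) (hτlt i j hij hj)
    exact congrFun (congrFun this k) l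
  let E : ℕ → Fin d → ℕ := fun i => p (τ (G * i))
  have hG0 : 0 < G := by omega
  have hM1 : G ≤ M := by
    rw [hM]
    nlinarith
  have hidx : ∀ i, i ≤ 2 * d → G * i ≤ M := by
    intro i hi
    rw [hM, mul_comm]
    exact Nat.mul_le_mul_right _ hi
  -- two basic facts
  have hgrow : ∀ k l : Option (Fin d), 0 < (cf k (E 1) - cf l (E 1)) - (cf k (E 0) - cf l (E 0)) →
      ∀ i j, i < j → j ≤ 2 * d →
        (2 * (K : ℤ)) ≤ (cf k (E j) - cf l (E j)) - (cf k (E i) - cf l (E i)) := by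
    intro k l hpos i j hij hj
    have h0 := hhom k l (G * 0) (G * 1) (by simpa using hG0) (by simpa using hM1)
    rw [sign_pos hpos] at h0
    have hg := growth (fun m => cf k (p (τ m)) - cf l (p (τ m))) M (by
      intro a b hab hb
      have := hhom k l a b hab hb
      rw [← h0, sign_eq_one_iff] at this
      show cf k (p (τ a)) - cf l (p (τ a)) < cf k (p (τ b)) - cf l (p (τ b))
      omega) (G * i) (G * j) (Nat.mul_le_mul_left _ hij.le) (hidx j hj)
    have h3 : ((G * j : ℕ) : ℤ) - ((G * i : ℕ) : ℤ) ≥ 2 * K := by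
      have h4 : (G : ℤ) = 2 * K := by rw [hG]; push_cast; ring
      push_cast
      rw [h4]
      have h5 : (1 : ℤ) ≤ (j : ℤ) - i := by omega
      have h6 : (0 : ℤ) ≤ 2 * K := by omega
      nlinarith
    show 2 * (K : ℤ) ≤ (cf k (p (τ (G * j))) - cf l (p (τ (G * j)))) -
      (cf k (p (τ (G * i))) - cf l (p (τ (G * i))))
    omega
  have hconst : ∀ k l : Option (Fin d), (cf k (E 1) - cf l (E 1)) - (cf k (E 0) - cf l (E 0)) = 0 →
      ∀ i j, i < j → j ≤ 2 * d →
        (cf k (E j) - cf l (E j)) - (cf k (E i) - cf l (E i)) = 0 := by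
    intro k l hz i j hij hj
    have h0 := hhom k l (G * 0) (G * 1) (by simpa using hG0) (by simpa using hM1)
    have h0' : SignType.sign ((cf k (E 1) - cf l (E 1)) - (cf k (E 0) - cf l (E 0))) = c k l := h0
    rw [hz, sign_zero] at h0'
    have h1 := hhom k l (G * i) (G * j) (Nat.mul_lt_mul_of_pos_left hij hG0) (hidx j hj)
    rw [← h0', sign_eq_zero_iff] at h1
    exact h1
  have hcs : ∀ (k : Fin d) (x : Fin d → ℕ), cf (some k) x = (x k : ℤ) := fun _ _ => rfl
  have hcn : ∀ (x : Fin d → ℕ), cf none x = 0 := fun _ => rfl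
  obtain ⟨q, I, hI, hIq, hq⟩ := core d α hα (K : ℤ) (by omega) hKα E
    (fun k => (E 1 k : ℤ) - E 0 k)
    (by
      intro k hk i j hij hj
      have := hgrow (some k) none (by rw [hcs, hcs, hcn, hcn]; simpa using hk) i j hij hj
      rw [hcs, hcs, hcn, hcn] at this
      omega)
    (by
      intro k hk i j hij hj
      have := hgrow none (some k) (by rw [hcs, hcs, hcn, hcn]; omega) i j hij hj
      rw [hcs, hcs, hcn, hcn] at this
      omega)
    (by
      intro k hk i j hij hj
      have := hconst (some k) none (by rw [hcs, hcs, hcn, hcn]; omega) i j hij hj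
      rw [hcs, hcs, hcn, hcn] at this
      omega)
    (by
      intro k l hk i j hij hj
      have := hgrow (some l) (some k) (by rw [hcs, hcs, hcs, hcs]; omega)
        i j hij hj
      rw [hcs, hcs, hcs, hcs] at this
      omega)
    (by
      intro k l hk i j hij hj
      have := hconst (some l) (some k) (by rw [hcs, hcs, hcs, hcs]; omega)
        i j hij hj
      rw [hcs, hcs, hcs, hcs] at this
      omega)
    (by
      by_contra hcon
      push Not at hcon
      have h01 : E 0 = E 1 := by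
        funext k
        have := hcon k
        omega
      have h2 : P (τ (G * 0)) = P (τ (G * 1)) := by
        rw [hp _ (hτA _ (by simp)), hp _ (hτA _ (by simpa using hM1))]
        show pt α (E 0) = pt α (E 1)
        rw [h01]
      have h3 := hPinj _ (hτA _ (by simp)) _ (hτA _ (by simpa using hM1)) h2
      have h4 := hτlt (G * 0) (G * 1) (by simpa using hG0) (by simpa using hM1)
      omega)
  -- contradiction
  have hEA : ∀ i ∈ I, pt α (E i) ∈ A := by
    intro i hi
    have h1 := hidx i (hI i hi)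
    have : pt α (E i) = P (τ (G * i)) := (hp _ (hτA _ h1)).symm
    rw [this]
    exact hPA _ (hτA _ h1)
  have hptinj : ∀ e e' : Fin d → ℕ, pt α e = pt α e' → e = e' := by
    intro e e' h
    funext k
    have := congrFun h k
    exact pow_right_injective₀ hα0 hα.ne' this
  have hsub1 : (fun i => pt α (E i)) '' I ⊆ (A : Set (Fin d → ℝ)) := by
    rintro _ ⟨i, hi, rfl⟩
    exact hEA i hi
  have hsub2 : (fun i => pt α (E i)) '' I ⊆ (A : Set (Fin d → ℝ)) \ {pt α q} := by
    rintro _ ⟨i, hi, rfl⟩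
    exact ⟨hEA i hi, fun h => hIq i hi (hptinj _ _ h)⟩
  exact (hA _ (pt_mem α q) (convexHull_mono hsub1 hq)).2 (convexHull_mono hsub2 hq)

/-- Empty subsets of `L_d(α)` have bounded size, for all `d` and all `α > 1`. -/
theorem empty_bound (d : ℕ) (α : ℝ) (hα : 1 < α) : ∃ N : ℕ,
    ∀ A : Finset (Fin d → ℝ), (A : Set (Fin d → ℝ)) ⊆ expLattice d α →
      EmptyIn (expLattice d α) A → A.card ≤ N := by
  rcases Nat.eq_zero_or_pos d with rfl | hd
  · exact ⟨1, fun A _ _ => Finset.card_le_one.2 (fun a _ b _ => Subsingleton.elim a b)⟩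
  · exact empty_bound_pos d hd α hα

theorem lattice_finite (d : ℕ) (α : ℝ) (hα : 1 < α) (A : Finset (Fin d → ℝ)) :
    (expLattice d α ∩ convexHull ℝ (A : Set (Fin d → ℝ))).Finite := by
  classical
  -- the hull is bounded
  have hb : Bornology.IsBounded (convexHull ℝ (A : Set (Fin d → ℝ))) :=
    isBounded_convexHull.2 A.finite_toSet.isBounded
  obtain ⟨B, hB⟩ := hb.exists_norm_le
  obtain ⟨n, hn⟩ := pow_unbounded_of_one_lt B hα
  have hα0 : 0 < α := by linarith
  have hfin : (Set.univ.pi (fun _ : Fin d => (fun m : ℕ => α ^ m) '' Set.Iic n)).Finite :=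
    Set.Finite.pi' (fun _ => (Set.finite_Iic n).image _) |>.subset (by
      intro x hx
      exact fun i => hx i (Set.mem_univ i))
  refine hfin.subset ?_
  rintro x ⟨hxL, hxc⟩ k -
  obtain ⟨m, hm⟩ := hxL k
  refine ⟨m, ?_, hm.symm⟩
  rw [Set.mem_Iic]
  by_contra hcon
  push Not at hcon
  have h1 : ‖x k‖ ≤ B := (norm_le_pi_norm x k).trans (hB x hxc)
  rw [hm, Real.norm_eq_abs, abs_of_pos (pow_pos hα0 m)] at h1
  have h2 : α ^ n < α ^ m := pow_lt_pow_right₀ hα hcon
  linarith

/-- The Helly number of `L_d(α)` is finite. -/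
theorem helly_finite (d : ℕ) (α : ℝ) (hα : 1 < α) : ∃ h : ℕ,
    ∀ F : Finset (Set (Fin d → ℝ)), (∀ C ∈ F, Convex ℝ C) →
      (∀ G ⊆ F, G.card ≤ h → ∃ x ∈ expLattice d α, ∀ C ∈ G, x ∈ C) →
      ∃ x ∈ expLattice d α, ∀ C ∈ F, x ∈ C := by
  obtain ⟨N, hN⟩ := empty_bound d α hα
  exact ⟨N, fun F hF hG => helly_of_empty_bound
    (fun A _ => lattice_finite d α hα A) hN F hF hG⟩

end Pool.Agent.X53.Exp
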